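import Mathlib

namespace Pool.Agent.Results.MP_349597_co.PrismGap

open Finset SimpleGraph

variable {V : Type} [DecidableEq V]

/-- The clique cover number: least number `k` of cliques partitioning the vertex set
(a surjection onto `Fin k` whose fibres are cliques). -/
noncomputable def cliqueCover (G : SimpleGraph V) : ℕ :=
  sInf {k | ∃ c : V → Fin k, Function.Surjective c ∧ ∀ u v, u ≠ v → c u = c v → G.Adj u v}

/-- `F` is an eternal family of `k`-element dominating sets of `G`. -/
def IsEternal (G : SimpleGraph V) (k : ℕ) (F : Set (Finset V)) : Prop :=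
  F.Nonempty ∧ ∀ D ∈ F, D.card = k ∧ (∀ v, v ∉ D → ∃ u ∈ D, G.Adj u v) ∧
    ∀ v, v ∉ D → ∃ u ∈ D, G.Adj u v ∧ insert v (D.erase u) ∈ F

/-- The eternal domination number (one guard moves per attack). -/
noncomputable def eternalDom (G : SimpleGraph V) : ℕ :=
  sInf {k | 1 ≤ k ∧ ∃ F : Set (Finset V), IsEternal G k F}

/-! ### general facts -/

lemma IsEternal.ge {G : SimpleGraph V} {k : ℕ} {F : Set (Finset V)} (h : IsEternal G k F)
    (I : Finset V) (hI : ∀ u ∈ I, ∀ v ∈ I, ¬ G.Adj u v) : I.card ≤ k := by
  classical
  obtain ⟨⟨D0, hD0⟩, hF⟩ := h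
  -- for every m ≤ |I| there is D ∈ F with at least m elements of I
  have key : ∀ m, m ≤ I.card → ∃ D ∈ F, m ≤ (D ∩ I).card := by
    intro m
    induction m with
    | zero => intro _; exact ⟨D0, hD0, Nat.zero_le _⟩
    | succ m ih =>
      intro hm
      obtain ⟨D, hD, hDm⟩ := ih (by omega)
      by_cases hsub : I ⊆ D
      · refine ⟨D, hD, ?_⟩
        rw [Finset.inter_eq_right.mpr hsub]; exact hm
      · obtain ⟨v, hvI, hvD⟩ := Finset.not_subset.mp hsub
        obtain ⟨u, huD, huv, hnew⟩ := (hF D hD).2.2 v hvD
        have huI : u ∉ I := fun hu => hI u hu v hvI huv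
        refine ⟨_, hnew, ?_⟩
        have : insert v (D.erase u) ∩ I = insert v (D ∩ I) := by
          ext x
          simp only [mem_inter, mem_insert, mem_erase]
          constructor
          · rintro ⟨h1 | h1, h2⟩
            · exact Or.inl h1
            · exact Or.inr ⟨h1.2, h2⟩
          · rintro (h1 | h1)
            · subst h1; exact ⟨Or.inl rfl, hvI⟩
            · refine ⟨Or.inr ⟨?_, h1.1⟩, h1.2⟩
              rintro rfl; exact huI h1.2
        rw [this, card_insert_of_notMem (by simp [hvD])]
        omega
  obtain ⟨D, hD, hDm⟩ := key I.card le_rfl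
  calc I.card ≤ (D ∩ I).card := hDm
    _ ≤ D.card := card_le_card inter_subset_left
    _ = k := (hF D hD).1

/-! ### the corona of a graph -/

/-- The corona of `H` with `K₁`: `(w, false)` is the vertex `w`, `(w, true)` its pendant. -/
def corona {W : Type} (H : SimpleGraph W) : SimpleGraph (W × Bool) where
  Adj p q := (p.2 = false ∧ q.2 = false ∧ H.Adj p.1 q.1) ∨ (p.1 = q.1 ∧ p.2 ≠ q.2)
  symm := ⟨fun p q h => by
    rcases h with ⟨h1, h2, h3⟩ | ⟨h1, h2⟩
    · exact Or.inl ⟨h2, h1, h3.symm⟩
    · exact Or.inr ⟨h1.symm, h2.symm⟩⟩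
  loopless := ⟨fun p h => by
    rcases h with ⟨_, _, h3⟩ | ⟨_, h2⟩
    · exact H.loopless.irrefl _ h3
    · exact h2 rfl⟩

section corona
variable {W : Type} [DecidableEq W] [Fintype W] (H : SimpleGraph W)

lemma corona_cliqueCover : cliqueCover (corona H) = Fintype.card W := by
  classical
  unfold cliqueCover
  apply le_antisymm
  · apply Nat.sInf_le
    refine ⟨fun p => Fintype.equivFin W p.1, ?_, ?_⟩
    · intro j
      exact ⟨((Fintype.equivFin W).symm j, false), by simp⟩
    · rintro ⟨u, i⟩ ⟨v, j⟩ hne h
      have huv : u = v := (Fintype.equivFin W).injective h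
      subst huv
      refine Or.inr ⟨rfl, ?_⟩
      intro hij
      exact hne (by simp only at hij; rw [hij])
  · apply le_csInf
    · refine ⟨Fintype.card W, fun p => Fintype.equivFin W p.1, ?_, ?_⟩
      · intro j
        exact ⟨((Fintype.equivFin W).symm j, false), by simp⟩
      · rintro ⟨u, i⟩ ⟨v, j⟩ hne h
        have huv : u = v := (Fintype.equivFin W).injective h
        subst huv
        refine Or.inr ⟨rfl, ?_⟩
        intro hij
        exact hne (by simp only at hij; rw [hij])
    · rintro k ⟨c, -, hc⟩
      have hinj : Function.Injective (fun w : W => c (w, true)) := by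
        intro u v h
        by_contra hne
        have := hc (u, true) (v, true) (by simpa using hne) h
        rcases this with ⟨h1, _, _⟩ | ⟨h1, _⟩
        · simp at h1
        · exact hne h1
      simpa using Fintype.card_le_of_injective _ hinj

lemma corona_eternalDom [Nonempty W] : eternalDom (corona H) = Fintype.card W := by
  classical
  have hmem : Fintype.card W ∈ {k | 1 ≤ k ∧ ∃ F : Set (Finset (W × Bool)),
      IsEternal (corona H) k F} := by
    refine ⟨Fintype.card_pos, Set.range (fun s : W → Bool =>
      (univ : Finset W).image (fun w => (w, s w))), ?_, ?_⟩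
    · exact Set.range_nonempty _
    · rintro D ⟨s, rfl⟩
      have resp : ∀ v, v ∉ (univ : Finset W).image (fun w => (w, s w)) →
          ∃ u ∈ (univ : Finset W).image (fun w => (w, s w)), (corona H).Adj u v ∧
            insert v (((univ : Finset W).image (fun w => (w, s w))).erase u) ∈
              Set.range (fun s : W → Bool => (univ : Finset W).image (fun w => (w, s w))) := by
        rintro ⟨w, i⟩ hv
        have hi : s w ≠ i := by
          intro h; apply hv
          simp [h]
        refine ⟨(w, s w), by simp, Or.inr ⟨rfl, hi⟩, Function.update s w i, ?_⟩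
        ext ⟨x, j⟩
        simp only [mem_image, mem_univ, true_and, Prod.mk.injEq, mem_insert, mem_erase, ne_eq]
        constructor
        · rintro ⟨y, rfl, h⟩
          by_cases hyw : y = w
          · subst hyw; simp at h; left; exact ⟨rfl, h.symm⟩
          · right
            rw [Function.update_of_ne hyw] at h
            exact ⟨fun h2 => hyw h2.1, y, rfl, h⟩
        · rintro (⟨rfl, rfl⟩ | ⟨h1, y, rfl, h2⟩)
          · exact ⟨x, rfl, by simp⟩
          · refine ⟨y, rfl, ?_⟩
            have : y ≠ w := by
              rintro rfl; exact h1 ⟨rfl, h2.symm⟩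
            rw [Function.update_of_ne this, h2]
      refine ⟨?_, ?_, resp⟩
      · rw [card_image_of_injective]
        · simp
        · intro a b h; simp only [Prod.mk.injEq] at h; exact h.1
      · intro v hv
        obtain ⟨u, hu, huv, _⟩ := resp v hv
        exact ⟨u, hu, huv⟩
  unfold eternalDom
  apply le_antisymm
  · exact Nat.sInf_le hmem
  · apply le_csInf ⟨_, hmem⟩
    rintro k ⟨-, F, hF⟩
    have := hF.ge ((univ : Finset W).image (fun w => (w, true))) (by
      intro u hu v hv h
      simp only [mem_image, mem_univ, true_and] at hu hv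
      obtain ⟨a, rfl⟩ := hu
      obtain ⟨b, rfl⟩ := hv
      rcases h with ⟨h1, _, _⟩ | ⟨_, h1⟩
      · simp at h1
      · simp at h1)
    rwa [card_image_of_injective _ (fun a b h => by
      simp only [Prod.mk.injEq] at h; exact h.1), card_univ] at this

omit [Fintype W] in
/-- three guards suffice locally when there is no independent triple -/
lemma three_guards (hα : ∀ x y z : W, x ≠ y → y ≠ z → x ≠ z → H.Adj x y ∨ H.Adj y z ∨ H.Adj x z)
    (T : Finset W) (hT : T.card = 3 ∧ ∃ a ∈ T, ∃ b ∈ T, a ≠ b ∧ ¬ H.Adj a b) (w : W)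
    (hw : w ∉ T) : ∃ u ∈ T, H.Adj u w ∧ ((insert w (T.erase u)).card = 3 ∧
      ∃ a ∈ insert w (T.erase u), ∃ b ∈ insert w (T.erase u), a ≠ b ∧ ¬ H.Adj a b) := by
  obtain ⟨h3, a, ha, b, hb, hab, hnab⟩ := hT
  have hcard : ∀ u ∈ T, (insert w (T.erase u)).card = 3 := by
    intro u hu
    rw [card_insert_of_notMem (by simp [hw]), card_erase_of_mem hu, h3]
  have hne : ((T.erase a).erase b).Nonempty := by
    rw [← card_pos, card_erase_of_mem (by simp [hb, hab.symm]), card_erase_of_mem ha, h3]
    norm_num
  obtain ⟨c, hc⟩ := hne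
  simp only [mem_erase] at hc
  obtain ⟨hcb, hca, hc⟩ := hc
  have hwa : a ≠ w := fun h => hw (h ▸ ha)
  have hwb : b ≠ w := fun h => hw (h ▸ hb)
  have hwc : c ≠ w := fun h => hw (h ▸ hc)
  by_cases hcw : H.Adj c w
  · refine ⟨c, hc, hcw, hcard c hc, a, ?_, b, ?_, hab, hnab⟩
    · simp [ha, hca.symm]
    · simp [hb, hcb.symm]
  · rcases hα a b w hab hwb hwa with h | h | h
    · exact absurd h hnab
    · refine ⟨b, hb, h, hcard b hb, c, ?_, w, ?_, hwc, hcw⟩
      · simp [hc, hcb]
      · simp
    · refine ⟨a, ha, h, hcard a ha, c, ?_, w, ?_, hwc, hcw⟩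
      · simp [hc, hca]
      · simp

/-- The guard configurations in the prism over the corona. -/
def conf (s : W → Bool) (T : Bool → Finset W) : Finset ((W × Bool) × Bool) :=
  univ.filter (fun x => if x.1.2 = true then x.2 = s x.1.1 else x.1.1 ∈ T x.2)

lemma mem_conf_true (s : W → Bool) (T : Bool → Finset W) (w : W) (b : Bool) :
    ((w, true), b) ∈ conf s T ↔ b = s w := by simp [conf]

lemma mem_conf_false (s : W → Bool) (T : Bool → Finset W) (w : W) (b : Bool) :
    ((w, false), b) ∈ conf s T ↔ w ∈ T b := by simp [conf]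

lemma card_conf (s : W → Bool) (T : Bool → Finset W) :
    (conf s T).card = Fintype.card W + ((T true).card + (T false).card) := by
  unfold conf
  rw [card_filter]
  simp only [Fintype.sum_prod_type, Fintype.sum_bool]
  simp only [if_true, Bool.false_eq_true, if_false]
  rw [Finset.sum_add_distrib]
  congr 1
  · have : ∀ w : W, ((if true = s w then 1 else 0) + if false = s w then 1 else 0 : ℕ) = 1 := by
      intro w; cases s w <;> simp
    rw [Finset.sum_congr rfl (fun w _ => this w)]
    simp
  · rw [Finset.sum_add_distrib]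
    simp

lemma prism_eternal [Nonempty W]
    (hα : ∀ x y z : W, x ≠ y → y ≠ z → x ≠ z → H.Adj x y ∨ H.Adj y z ∨ H.Adj x z)
    (T0 : Finset W) (hT0 : T0.card = 3 ∧ ∃ a ∈ T0, ∃ b ∈ T0, a ≠ b ∧ ¬ H.Adj a b) :
    eternalDom (corona H □ (⊤ : SimpleGraph Bool)) ≤ Fintype.card W + 6 := by
  classical
  apply Nat.sInf_le
  refine ⟨by omega, {D | ∃ (s : W → Bool) (T : Bool → Finset W),
    (∀ b, (T b).card = 3 ∧ ∃ a ∈ T b, ∃ c ∈ T b, a ≠ c ∧ ¬ H.Adj a c) ∧ D = conf s T}, ?_, ?_⟩
  · exact ⟨_, fun _ => false, fun _ => T0, fun _ => hT0, rfl⟩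
  · rintro D ⟨s, T, hT, rfl⟩
    have resp : ∀ v, v ∉ conf s T → ∃ u ∈ conf s T,
        (corona H □ (⊤ : SimpleGraph Bool)).Adj u v ∧
        insert v ((conf s T).erase u) ∈ {D | ∃ (s : W → Bool) (T : Bool → Finset W),
          (∀ b, (T b).card = 3 ∧ ∃ a ∈ T b, ∃ c ∈ T b, a ≠ c ∧ ¬ H.Adj a c) ∧ D = conf s T} := by
      rintro ⟨⟨w, i⟩, b⟩ hv
      cases i with
      | true =>
        rw [mem_conf_true] at hv
        refine ⟨((w, true), s w), by rw [mem_conf_true], ?_, Function.update s w b, T, hT, ?_⟩
        · rw [boxProd_adj]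
          right
          exact ⟨fun h => hv h.symm, rfl⟩
        · ext ⟨⟨x, j⟩, c⟩
          rw [mem_insert, mem_erase]
          cases j with
          | true =>
            rw [mem_conf_true, mem_conf_true]
            by_cases hxw : x = w
            · subst hxw
              simp only [Prod.mk.injEq, true_and, ne_eq, Function.update_self]
              constructor
              · rintro (h | h)
                · exact h
                · exact absurd h.2 h.1
              · intro h; exact Or.inl h
            · rw [Function.update_of_ne hxw]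
              simp [hxw]
          | false =>
            rw [mem_conf_false, mem_conf_false]
            simp
      | false =>
        rw [mem_conf_false] at hv
        obtain ⟨u, hu, huw, hgood⟩ := three_guards H hα (T b) (hT b) w hv
        refine ⟨((u, false), b), by rwa [mem_conf_false], ?_, s,
          Function.update T b (insert w ((T b).erase u)), ?_, ?_⟩
        · rw [boxProd_adj]
          left
          exact ⟨Or.inl ⟨rfl, rfl, huw⟩, rfl⟩
        · intro c
          by_cases hc : c = b
          · subst hc; rw [Function.update_self]; exact hgood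
          · rw [Function.update_of_ne hc]; exact hT c
        · ext ⟨⟨x, j⟩, c⟩
          rw [mem_insert, mem_erase]
          cases j with
          | true =>
            rw [mem_conf_true, mem_conf_true]
            simp
          | false =>
            rw [mem_conf_false, mem_conf_false]
            by_cases hc : c = b
            · subst hc
              rw [Function.update_self, mem_insert, mem_erase]
              simp
            · rw [Function.update_of_ne hc]
              simp [hc]
    refine ⟨?_, ?_, resp⟩
    · rw [card_conf, (hT true).1, (hT false).1]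
    · intro v hv
      obtain ⟨u, hu, huv, _⟩ := resp v hv
      exact ⟨u, hu, huv⟩

/-- A clique cover of the prism over the corona with `k` classes gives a clique cover of `H`
with `k - |W|` classes. -/
lemma prism_cover {k : ℕ} (c : (W × Bool) × Bool → Fin k)
    (hc : ∀ u v, u ≠ v → c u = c v → (corona H □ (⊤ : SimpleGraph Bool)).Adj u v) :
    ∃ (C : Type) (_ : Fintype C) (f : W → C), Fintype.card C + Fintype.card W = k ∧
      ∀ u v, u ≠ v → f u = f v → H.Adj u v := by
  classical
  have hinj : Function.Injective (fun w : W => c ((w, true), false)) := by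
    intro u v h
    by_contra hne
    have := hc ((u, true), false) ((v, true), false) (by simpa using hne) h
    rw [boxProd_adj] at this
    rcases this with ⟨(⟨h1, _, _⟩ | ⟨h1, _⟩), _⟩ | ⟨_, h1⟩
    · simp at h1
    · exact hne h1
    · simp only [Prod.mk.injEq] at h1; exact hne h1.1
  -- adjacency facts
  have adj_elim : ∀ (x y : W) (i j a b : Bool),
      (corona H □ (⊤ : SimpleGraph Bool)).Adj ((x, i), a) ((y, j), b) →
      (i = false ∧ j = false ∧ H.Adj x y ∧ a = b) ∨ (x = y ∧ i ≠ j ∧ a = b) ∨
        (a ≠ b ∧ x = y ∧ i = j) := by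
    intro x y i j a b h
    rw [boxProd_adj] at h
    rcases h with ⟨(⟨h1, h2, h3⟩ | ⟨h1, h2⟩), h4⟩ | ⟨h1, h2⟩
    · exact Or.inl ⟨h1, h2, h3, h4⟩
    · exact Or.inr (Or.inl ⟨h1, h2, h4⟩)
    · simp only [Prod.mk.injEq] at h2
      exact Or.inr (Or.inr ⟨h1, h2.1, h2.2⟩)
  let S : Set (Fin k) := Set.range (fun w : W => c ((w, true), false))
  -- second colour is fresh when the first is not
  have hfresh : ∀ w, c ((w, false), false) ∈ S → c ((w, true), true) ∉ S := by
    rintro w ⟨x, hx⟩ ⟨y, hy⟩
    simp only at hx hy
    have h1 := adj_elim _ _ _ _ _ _ (hc _ _ (by simp) hx)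
    have hxw : x = w := by
      rcases h1 with h | h | h
      · simp at h
      · exact h.1
      · exact h.2.1
    subst hxw
    have h2 := adj_elim _ _ _ _ _ _ (hc _ _ (by simp) hy)
    have hyw : y = x := by
      rcases h2 with h | h | h
      · simp at h
      · exact h.1
      · exact h.2.1
    subst hyw
    have h3 := adj_elim _ _ _ _ _ _ (hc ((y, false), false) ((y, true), true) (by simp)
      (hx.symm.trans hy))
    rcases h3 with h | h | h
    · simp at h
    · simp at h
    · simp at h
  refine ⟨{j : Fin k // j ∉ S}, inferInstance, fun w =>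
    if h : c ((w, false), false) ∈ S then ⟨c ((w, true), true), hfresh w h⟩
    else ⟨c ((w, false), false), h⟩, ?_, ?_⟩
  · have h1 : Fintype.card {j : Fin k // j ∉ S} = Fintype.card (Fin k) - Fintype.card {j : Fin k // j ∈ S} :=
      Fintype.card_subtype_compl _
    have h2 : Fintype.card {j : Fin k // j ∈ S} = Fintype.card W := by
      have := Fintype.card_congr (Equiv.ofInjective _ hinj)
      rw [this]
    have h3 : Fintype.card W ≤ k := by
      simpa using Fintype.card_le_of_injective _ hinj
    rw [h1, h2, Fintype.card_fin]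
    omega
  · intro u v huv h
    by_cases hu : c ((u, false), false) ∈ S <;> by_cases hv : c ((v, false), false) ∈ S
    · simp only [hu, hv, dif_pos, Subtype.mk.injEq] at h
      have := adj_elim _ _ _ _ _ _ (hc _ _ (by simpa using huv) h)
      rcases this with h1 | h1 | h1
      · simp at h1
      · exact absurd h1.1 huv
      · exact absurd h1.2.1 huv
    · simp only [hu, hv, dif_pos, dif_neg, not_false_eq_true, Subtype.mk.injEq] at h
      have := adj_elim _ _ _ _ _ _ (hc _ _ (by simp) h)
      rcases this with h1 | h1 | h1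
      · simp at h1
      · simp at h1
      · simp at h1
    · simp only [hu, hv, dif_pos, dif_neg, not_false_eq_true, Subtype.mk.injEq] at h
      have := adj_elim _ _ _ _ _ _ (hc _ _ (by simp) h)
      rcases this with h1 | h1 | h1
      · simp at h1
      · simp at h1
      · simp at h1
    · simp only [hu, hv, dif_neg, not_false_eq_true, Subtype.mk.injEq] at h
      have := adj_elim _ _ _ _ _ _ (hc _ _ (by simpa using huv) h)
      rcases this with h1 | h1 | h1
      · exact h1.2.2.1
      · exact absurd h1.1 huv
      · exact absurd h1.2.1 huv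

end corona

/-! ### the complement of the shift graph -/

/-- shift relation on pairs -/
def shiftRel (N : ℕ) (p q : Fin N × Fin N) : Prop :=
  (p.1 < p.2 ∧ p.2 = q.1 ∧ q.1 < q.2) ∨ (q.1 < q.2 ∧ q.2 = p.1 ∧ p.1 < p.2)

/-- complement of the shift graph -/
def coShift (N : ℕ) : SimpleGraph (Fin N × Fin N) where
  Adj p q := p ≠ q ∧ ¬ shiftRel N p q
  symm := ⟨fun _ _ h => ⟨h.1.symm, fun h2 => h.2 (Or.symm h2)⟩⟩
  loopless := ⟨fun _ h => h.1 rfl⟩

lemma coShift_alpha (N : ℕ) (x y z : Fin N × Fin N) (hxy : x ≠ y) (hyz : y ≠ z) (hxz : x ≠ z) :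
    (coShift N).Adj x y ∨ (coShift N).Adj y z ∨ (coShift N).Adj x z := by
  by_contra hcon
  push Not at hcon
  obtain ⟨h1, h2, h3⟩ := hcon
  have e1 : shiftRel N x y := by
    by_contra h; exact h1 ⟨hxy, h⟩
  have e2 : shiftRel N y z := by
    by_contra h; exact h2 ⟨hyz, h⟩
  have e3 : shiftRel N x z := by
    by_contra h; exact h3 ⟨hxz, h⟩
  unfold shiftRel at e1 e2 e3
  simp only [Fin.lt_def, Fin.ext_iff] at e1 e2 e3
  omega

lemma coShift_cover (N : ℕ) (C : Type) [Fintype C] (f : Fin N × Fin N → C)
    (hf : ∀ u v, u ≠ v → f u = f v → (coShift N).Adj u v) : N ≤ 2 ^ Fintype.card C := by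
  classical
  let A : Fin N → Finset C := fun j => (univ.filter (fun k => j < k)).image (fun k => f (j, k))
  have hlt : ∀ i j, i < j → A i ≠ A j := by
    intro i j hij h
    have h1 : f (i, j) ∈ A i := mem_image.mpr ⟨j, by simp [hij], rfl⟩
    rw [h] at h1
    obtain ⟨k, hk, hfk⟩ := mem_image.mp h1
    simp only [mem_filter, mem_univ, true_and] at hk
    have hne : (j, k) ≠ (i, j) := by
      intro h; simp only [Prod.mk.injEq] at h; exact absurd h.1 (ne_of_gt hij)
    have := hf _ _ hne hfk
    exact this.2 (Or.inr ⟨hij, rfl, hk⟩)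
  have hinj : Function.Injective A := by
    intro i j h
    rcases lt_trichotomy i j with h1 | h1 | h1
    · exact absurd h (hlt i j h1)
    · exact h1
    · exact absurd h.symm (hlt j i h1)
  have := Fintype.card_le_of_injective A hinj
  simpa using this

/-- For every `g` there is a finite graph `G` with `θ(G) = γ^∞(G)` but
`γ^∞(G □ K₂) + g < θ(G □ K₂)`. -/
theorem result : ∀ g : ℕ, ∃ (V : Type) (_ : Fintype V) (_ : DecidableEq V) (G : SimpleGraph V),
    cliqueCover G = eternalDom G ∧
    eternalDom (G □ (⊤ : SimpleGraph Bool)) + g < cliqueCover (G □ (⊤ : SimpleGraph Bool)) := by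
  intro g
  classical
  set N := 2 ^ (g + 6) + 3 with hN
  have hN3 : 3 ≤ N := Nat.le_add_left _ _
  have hNne : Nonempty (Fin N × Fin N) := ⟨(⟨0, by omega⟩, ⟨0, by omega⟩)⟩
  refine ⟨(Fin N × Fin N) × Bool, inferInstance, inferInstance, corona (coShift N), ?_, ?_⟩
  · rw [corona_cliqueCover, corona_eternalDom]
  · let p0 : Fin N × Fin N := (⟨0, by omega⟩, ⟨1, by omega⟩)
    let p1 : Fin N × Fin N := (⟨1, by omega⟩, ⟨2, by omega⟩)
    let p2 : Fin N × Fin N := (⟨2, by omega⟩, ⟨0, by omega⟩)
    have h01 : p0 ≠ p1 := by simp [p0, p1]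
    have h02 : p0 ≠ p2 := by simp [p0, p2]
    have h12 : p1 ≠ p2 := by simp [p1, p2]
    have hup := prism_eternal (coShift N) (coShift_alpha N) {p0, p1, p2} (by
      refine ⟨?_, p0, by simp, p1, by simp, h01, ?_⟩
      · rw [card_eq_three]; exact ⟨p0, p1, p2, h01, h02, h12, rfl⟩
      · intro h
        apply h.2
        left
        refine ⟨?_, rfl, ?_⟩
        · simp [p0]
        · simp [p1, Fin.lt_def])
    have hlow : Fintype.card (Fin N × Fin N) + (g + 6) <
        cliqueCover (corona (coShift N) □ (⊤ : SimpleGraph Bool)) := by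
      apply Nat.lt_of_succ_le
      apply le_csInf
      · refine ⟨Fintype.card (((Fin N × Fin N) × Bool) × Bool), Fintype.equivFin _,
          (Fintype.equivFin _).surjective, ?_⟩
        intro u v hne h
        exact absurd ((Fintype.equivFin _).injective h) hne
      · rintro k ⟨c, -, hc⟩
        obtain ⟨C, _, f, hk, hf⟩ := prism_cover (coShift N) c hc
        have h1 := coShift_cover N C f hf
        have h2 : g + 6 < Fintype.card C := by
          by_contra hcon
          push Not at hcon
          have : 2 ^ Fintype.card C ≤ 2 ^ (g + 6) := Nat.pow_le_pow_right (by norm_num) hcon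
          omega
        omega
    omega

end Pool.Agent.Results.MP_349597_co.PrismGap
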